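import Mathlib

set_option autoImplicit false

namespace Pool.Agent.Results.MP_7523ff_co.RegularMinimizers

open scoped Matrix

open Classical in
/-- The spectral radius: the largest eigenvalue of the adjacency matrix. -/
noncomputable def lam {n : ℕ} (G : SimpleGraph (Fin n)) : ℝ :=
  sSup {t : ℝ | ∃ v : Fin n → ℝ, v ≠ 0 ∧ (G.adjMatrix ℝ) *ᵥ v = t • v}

/-- `G ∈ H(n, m)`: connected, on `n` vertices, with `m` edges. -/
def InH {n : ℕ} (m : ℕ) (G : SimpleGraph (Fin n)) : Prop := G.Connected ∧ G.edgeSet.ncard = m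

/-- `G` minimizes the spectral radius over `H(n, m)`. -/
def IsMinimizer {n : ℕ} (m : ℕ) (G : SimpleGraph (Fin n)) : Prop :=
  InH m G ∧ ∀ H : SimpleGraph (Fin n), InH m H → lam G ≤ lam H

/-- number of edges of the Turán graph `T_{n,k}` -/
noncomputable def turanEdges (n k : ℕ) : ℕ := (SimpleGraph.turanGraph n k).edgeSet.ncard

/-- `r = r(n, m)`: `e(T_{n,r-1}) < m ≤ e(T_{n,r})`. -/
def IsTuranIndex (n m r : ℕ) : Prop := 2 ≤ r ∧ turanEdges n (r - 1) < m ∧ m ≤ turanEdges n r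

theorem ncard_edge {n : ℕ} (G : SimpleGraph (Fin n)) [DecidableRel G.Adj] :
    G.edgeSet.ncard = G.edgeFinset.card := by
  rw [Set.ncard_eq_toFinset_card']
  rfl

section
open Classical

/-- eigenvalues are bounded by the maximum degree -/
theorem eig_le {n : ℕ} (G : SimpleGraph (Fin n)) (D : ℕ) (hD : ∀ v, G.degree v ≤ D) (t : ℝ)
    (v : Fin n → ℝ) (hv : v ≠ 0) (h : (G.adjMatrix ℝ) *ᵥ v = t • v) : t ≤ D := by
  obtain ⟨i0, hi0⟩ := Function.ne_iff.1 hv
  have : Nonempty (Fin n) := ⟨i0⟩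
  obtain ⟨i, hi⟩ := Finite.exists_max (fun j => |v j|)
  have hpos : 0 < |v i| := lt_of_lt_of_le (abs_pos.2 hi0) (hi i0)
  have h1 := congrFun h i
  rw [SimpleGraph.adjMatrix_mulVec_apply, Pi.smul_apply, smul_eq_mul] at h1
  have h2 : |t| * |v i| ≤ D * |v i| := by
    rw [← abs_mul, ← h1]
    refine (Finset.abs_sum_le_sum_abs _ _).trans ?_
    refine (Finset.sum_le_card_nsmul _ _ |v i| fun j _ => hi j).trans ?_
    rw [nsmul_eq_mul]
    have : ((G.neighborFinset i).card : ℝ) ≤ D := by exact_mod_cast hD i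
    gcongr
  exact (le_abs_self t).trans (le_of_mul_le_mul_right h2 hpos)

theorem bdd {n : ℕ} (G : SimpleGraph (Fin n)) :
    BddAbove {t : ℝ | ∃ v : Fin n → ℝ, v ≠ 0 ∧ (G.adjMatrix ℝ) *ᵥ v = t • v} := by
  refine ⟨(n : ℝ), ?_⟩
  rintro t ⟨v, hv, h⟩
  refine eig_le G n (fun w => ?_) t v hv h
  have := G.degree_lt_card_verts w
  rw [Fintype.card_fin] at this
  exact this.le

/-- regular graphs -/
theorem lam_le {n : ℕ} (hn : 0 < n) (G : SimpleGraph (Fin n)) (D : ℕ)
    (hD : ∀ v, G.degree v = D) : lam G ≤ D := by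
  have hne : {t : ℝ | ∃ v : Fin n → ℝ, v ≠ 0 ∧ (G.adjMatrix ℝ) *ᵥ v = t • v}.Nonempty := by
    refine ⟨(D : ℝ), fun _ => 1, ?_, ?_⟩
    · intro h
      have := congrFun h ⟨0, hn⟩
      simp at this
    · funext i
      rw [SimpleGraph.adjMatrix_mulVec_apply]
      simp [hD i]
  refine csSup_le hne ?_
  rintro t ⟨v, hv, h⟩
  exact eig_le G D (fun w => (hD w).le) t v hv h

/-- average degree bound -/
theorem le_lam {n : ℕ} (_hn : 0 < n) (H : SimpleGraph (Fin n)) :
    2 * (H.edgeFinset.card : ℝ) ≤ lam H * n := by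
  set A := H.adjMatrix ℝ with hA
  set μ := lam H with hμ
  have hAh : A.IsHermitian := by
    rw [Matrix.IsHermitian, Matrix.conjTranspose_eq_transpose_of_trivial]
    exact SimpleGraph.isSymm_adjMatrix H
  set M : Matrix (Fin n) (Fin n) ℝ := μ • (1 : Matrix (Fin n) (Fin n) ℝ) - A with hM
  have hMh : M.IsHermitian := by
    have h1 : (μ • (1 : Matrix (Fin n) (Fin n) ℝ)).IsHermitian := by
      rw [Matrix.IsHermitian, Matrix.conjTranspose_eq_transpose_of_trivial]
      simp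
    exact h1.sub hAh
  have hpsd : M.PosSemidef := by
    rw [hMh.posSemidef_iff_eigenvalues_nonneg]
    intro j
    have h1 := hMh.mulVec_eigenvectorBasis j
    set w : Fin n → ℝ := ⇑(hMh.eigenvectorBasis j) with hw
    have hw0 : w ≠ 0 := by
      intro h
      have h2 := (hMh.eigenvectorBasis).orthonormal.ne_zero j
      apply h2
      ext i
      exact congrFun h i
    have h3 : A *ᵥ w = (μ - hMh.eigenvalues j) • w := by
      have e : M *ᵥ w = μ • w - A *ᵥ w := by
        rw [hM, Matrix.sub_mulVec, Matrix.smul_mulVec, Matrix.one_mulVec]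
      rw [sub_smul, ← h1, e]
      abel
    have h4 : μ - hMh.eigenvalues j ≤ μ := le_csSup (bdd H) ⟨w, hw0, h3⟩
    show 0 ≤ hMh.eigenvalues j
    linarith
  have hone := hpsd.dotProduct_mulVec_nonneg (fun _ => (1 : ℝ))
  have hcalc : star (fun _ : Fin n => (1 : ℝ)) ⬝ᵥ (M *ᵥ fun _ => 1) =
      μ * n - 2 * (H.edgeFinset.card : ℝ) := by
    rw [hM, Matrix.sub_mulVec, Matrix.smul_mulVec, Matrix.one_mulVec]
    have h5 : (2 * (H.edgeFinset.card : ℝ)) = ∑ v, (H.degree v : ℝ) := by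
      have := H.sum_degrees_eq_twice_card_edges
      exact_mod_cast this.symm
    rw [h5]
    simp only [dotProduct, Pi.star_apply, star_trivial, one_mul, Pi.sub_apply, Pi.smul_apply,
      smul_eq_mul, mul_one, hA, SimpleGraph.adjMatrix_mulVec_apply, Finset.sum_sub_distrib,
      Finset.sum_const, SimpleGraph.card_neighborFinset_eq_degree, nsmul_eq_mul]
    simp
    ring
  rw [hcalc] at hone
  linarith

/-- the complement of the Hamiltonian cycle on `3t` vertices -/
noncomputable def Gt (t : ℕ) : SimpleGraph (Fin (3 * t)) := (SimpleGraph.cycleGraph (3 * t))ᶜ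

theorem deg_Gt (t : ℕ) (ht : 2 ≤ t) (v : Fin (3 * t)) : (Gt t).degree v = 3 * t - 3 := by
  obtain ⟨k, rfl⟩ := Nat.exists_eq_add_of_le ht
  have h : ∀ v : Fin (3 * (2 + k)), (SimpleGraph.cycleGraph (3 * (2 + k))).degree v = 2 := by
    have e : 3 * (2 + k) = (3 * k + 3) + 3 := by ring
    rw [e]
    intro v
    exact SimpleGraph.cycleGraph_degree_three_le
  have h1 := SimpleGraph.degree_compl (SimpleGraph.cycleGraph (3 * (2 + k))) v
  rw [h v, Fintype.card_fin] at h1
  have e : (Gt (2 + k)).degree v = (SimpleGraph.cycleGraph (3 * (2 + k)))ᶜ.degree v := by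
    unfold Gt
    congr
    exact Subsingleton.elim _ _
  rw [e, h1]
  omega

theorem no_triangle (n : ℕ) (hn : 4 ≤ n) (a b c : Fin n) (hab : (SimpleGraph.cycleGraph n).Adj a b)
    (hbc : (SimpleGraph.cycleGraph n).Adj b c) (hca : (SimpleGraph.cycleGraph n).Adj c a) :
    False := by
  obtain ⟨k, rfl⟩ := Nat.exists_eq_add_of_le' hn
  rw [SimpleGraph.cycleGraph_adj (n := k + 2)] at hab hbc hca
  have key : ∀ x y z : ℤ, (x = 1 ∨ x = -1) → (y = 1 ∨ y = -1) → (z = 1 ∨ z = -1) →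
      ((x + y + z : ℤ) : ZMod (k + 4)) ≠ 0 := by
    intro x y z hx hy hz h
    rw [ZMod.intCast_zmod_eq_zero_iff_dvd] at h
    have h2 : x + y + z ≠ 0 := by rcases hx with rfl | rfl <;> rcases hy with rfl | rfl <;>
      rcases hz with rfl | rfl <;> norm_num
    have h3 := Int.le_of_dvd (abs_pos.2 h2) ((dvd_abs _ _).2 h)
    have h4 : |x + y + z| ≤ 3 := by
      rcases hx with rfl | rfl <;> rcases hy with rfl | rfl <;>
      rcases hz with rfl | rfl <;> norm_num
    push_cast at h3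
    omega
  have aux : ∀ u v : Fin (k + 4), u - v = 1 →
      ((u.val : ℕ) : ZMod (k + 4)) = 1 + ((v.val : ℕ) : ZMod (k + 4)) := by
    intro u v h
    have h1 : u = 1 + v := by rw [← h, sub_add_cancel]
    have h2 : u.val = (1 + v.val) % (k + 4) := by
      rw [h1, Fin.val_add]
      rfl
    rw [h2, ZMod.natCast_mod]
    push_cast
    rfl
  have sgn : ∀ u v : Fin (k + 4), (u - v = 1 ∨ v - u = 1) →
      ∃ x : ℤ, (x = 1 ∨ x = -1) ∧ (x : ZMod (k + 4)) =
        ((u.val : ℕ) : ZMod (k + 4)) - ((v.val : ℕ) : ZMod (k + 4)) := by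
    intro u v h
    rcases h with h | h
    · refine ⟨1, Or.inl rfl, ?_⟩
      rw [aux u v h]
      push_cast
      ring
    · refine ⟨-1, Or.inr rfl, ?_⟩
      rw [aux v u h]
      push_cast
      ring
  obtain ⟨x, hx, hx'⟩ := sgn a b hab
  obtain ⟨y, hy, hy'⟩ := sgn b c hbc
  obtain ⟨z, hz, hz'⟩ := sgn c a hca
  apply key x y z hx hy hz
  push_cast
  rw [hx', hy', hz']
  ring

theorem not_col (t : ℕ) (ht : 2 ≤ t) : ¬ (Gt t).Colorable t := by
  rintro ⟨C⟩
  have hlt : Fintype.card (Fin t) * 2 < Fintype.card (Fin (3 * t)) := by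
    simp only [Fintype.card_fin]; omega
  obtain ⟨y, hy⟩ := Fintype.exists_lt_card_fiber_of_mul_lt_card C hlt
  rw [Finset.two_lt_card] at hy
  obtain ⟨a, ha, b, hb, c, hc, hab, hac, hbc⟩ := hy
  simp only [Finset.mem_filter, Finset.mem_univ, true_and] at ha hb hc
  have hadj : ∀ u v, u ≠ v → C u = C v → (SimpleGraph.cycleGraph (3 * t)).Adj u v := by
    intro u v hne heq
    by_contra hn
    have : (Gt t).Adj u v := (SimpleGraph.compl_adj _ _ _).2 ⟨hne, hn⟩
    exact C.valid this heq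
  exact no_triangle (3 * t) (by omega) a b c (hadj a b hab (ha.trans hb.symm))
    (hadj b c hbc (hb.trans hc.symm)) (hadj c a hac.symm (hc.trans ha.symm))

theorem conn (t : ℕ) (ht : 3 ≤ t) : (Gt t).Connected := by
  have hne : Nonempty (Fin (3 * t)) := ⟨⟨0, by omega⟩⟩
  refine ⟨fun u v => ?_⟩
  by_cases huv : u = v
  · rw [huv]
  have h1 : ((Gt t).neighborFinset u ∩ (Gt t).neighborFinset v).Nonempty := by
    apply Finset.inter_nonempty_of_card_lt_card_add_card (s := (Finset.univ : Finset (Fin (3 * t))))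
      (Finset.subset_univ _) (Finset.subset_univ _)
    have e1 : ((Gt t).neighborFinset u).card = 3 * t - 3 := deg_Gt t (by omega) u
    have e2 : ((Gt t).neighborFinset v).card = 3 * t - 3 := deg_Gt t (by omega) v
    rw [e1, e2, Finset.card_univ, Fintype.card_fin]
    omega
  obtain ⟨w, hw⟩ := h1
  rw [Finset.mem_inter, SimpleGraph.mem_neighborFinset, SimpleGraph.mem_neighborFinset] at hw
  exact hw.1.reachable.trans hw.2.symm.reachable

theorem edges_Gt (t : ℕ) (ht : 2 ≤ t) : 2 * (Gt t).edgeFinset.card = 3 * t * (3 * t - 3) := by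
  rw [← SimpleGraph.sum_degrees_eq_twice_card_edges]
  rw [Finset.sum_congr rfl fun v _ => deg_Gt t ht v]
  simp

theorem turan_eq (t : ℕ) (ht : 2 ≤ t) : 2 * turanEdges (3 * t) t = 3 * t * (3 * t - 3) := by
  rw [turanEdges, ncard_edge, SimpleGraph.card_edgeFinset_turanGraph]
  obtain ⟨k, rfl⟩ := Nat.exists_eq_add_of_le' ht
  have h0 : 3 * (k + 2) % (k + 2) = 0 := Nat.mul_mod_left 3 (k + 2)
  rw [h0]
  have e1 : ((3 * (k + 2)) ^ 2 - 0 ^ 2) * (k + 2 - 1) = (2 * (k + 2)) * (9 * ((k + 2) * (k + 1) / 2)) := by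
    have h2 : 2 * ((k + 2) * (k + 1) / 2) = (k + 2) * (k + 1) :=
      Nat.mul_div_cancel' (by
        have := Nat.even_mul_succ_self (k + 1)
        rw [mul_comm] at this
        exact this.two_dvd)
    have h3 : k + 2 - 1 = k + 1 := by omega
    rw [h3]
    calc ((3 * (k + 2)) ^ 2 - 0 ^ 2) * (k + 1) = 9 * (k + 2) * ((k + 2) * (k + 1)) := by
          simp only [ne_eq, OfNat.ofNat_ne_zero, not_false_eq_true, zero_pow, Nat.sub_zero]; ring
      _ = 9 * (k + 2) * (2 * ((k + 2) * (k + 1) / 2)) := by rw [h2]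
      _ = _ := by ring
  rw [e1, Nat.mul_div_cancel_left _ (by positivity)]
  have h2 : 2 * ((k + 2) * (k + 1) / 2) = (k + 2) * (k + 1) :=
    Nat.mul_div_cancel' (by
      have := Nat.even_mul_succ_self (k + 1)
      rw [mul_comm] at this
      exact this.two_dvd)
  have h4 : 3 * (k + 2) - 3 = 3 * (k + 1) := by omega
  rw [h4]
  simp only [Nat.choose_zero_succ, add_zero]
  calc 2 * (9 * ((k + 2) * (k + 1) / 2)) = 9 * (2 * ((k + 2) * (k + 1) / 2)) := by ring
    _ = 9 * ((k + 2) * (k + 1)) := by rw [h2]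
    _ = _ := by ring

theorem turan_lt (n t : ℕ) (ht : 2 ≤ t) (hn : t ≤ n) : turanEdges n (t - 1) < turanEdges n t := by
  by_contra hcon
  push Not at hcon
  rw [turanEdges, turanEdges, ncard_edge, ncard_edge] at hcon
  have hcf : (SimpleGraph.turanGraph n (t - 1)).CliqueFree t := by
    have := SimpleGraph.turanGraph_cliqueFree (n := n) (r := t - 1) (by omega)
    rwa [Nat.sub_add_cancel (by omega)] at this
  have hmax := SimpleGraph.isTuranMaximal_turanGraph (n := n) (r := t) (by omega)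
  have hT : (SimpleGraph.turanGraph n (t - 1)).IsTuranMaximal t := by
    refine ⟨hcf.mono (by omega), ?_⟩
    intro H _ hH
    exact (hmax.2 hH).trans hcon
  have := SimpleGraph.not_cliqueFree_of_isTuranMaximal (by simpa using hn) hT
  exact this hcf

/-- The statement of Q1 fails: for every exponent `α ∈ (0,2)`, every `c > 0` and every `n₀` there
are `n ≥ n₀`, `m` with `c n^α ≤ m ≤ C(n,2)`, and a minimizer of the spectral radius in `H(n,m)`
that is not `r(n,m)`-colorable. -/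
theorem result (α : ℝ) (_hα0 : 0 < α) (hα2 : α < 2) (c : ℝ) (_hc : 0 < c) (n₀ : ℕ) :
    ∃ n m r : ℕ, n₀ ≤ n ∧ c * (n : ℝ) ^ α ≤ m ∧ m ≤ n.choose 2 ∧ IsTuranIndex n m r ∧
      ∃ G : SimpleGraph (Fin n), IsMinimizer m G ∧ ¬ G.Colorable r := by
  have hlim : Filter.Tendsto (fun n : ℕ => (n : ℝ) ^ (2 - α)) Filter.atTop Filter.atTop :=
    (tendsto_rpow_atTop (by linarith)).comp tendsto_natCast_atTop_atTop
  obtain ⟨N, hN⟩ := Filter.eventually_atTop.1 (hlim.eventually_ge_atTop (4 * c))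
  set t := max N n₀ + 3 with ht
  have ht3 : 3 ≤ t := by omega
  have hE := edges_Gt t (by omega)
  have hTe := turan_eq t (by omega)
  refine ⟨3 * t, (Gt t).edgeFinset.card, t, by omega, ?_, ?_, ⟨by omega, ?_, ?_⟩, Gt t,
    ⟨⟨conn t ht3, ncard_edge _⟩, ?_⟩, not_col t (by omega)⟩
  · have h1 := hN (3 * t) (by omega)
    have hnpos : (0 : ℝ) < ((3 * t : ℕ) : ℝ) := by
      have : 0 < 3 * t := by omega
      exact_mod_cast this
    have h2 : ((3 * t : ℕ) : ℝ) ^ (2 - α) * ((3 * t : ℕ) : ℝ) ^ α = ((3 * t : ℕ) : ℝ) ^ 2 := by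
      rw [← Real.rpow_add hnpos]
      norm_num
    have h3 : 0 < ((3 * t : ℕ) : ℝ) ^ α := Real.rpow_pos_of_pos hnpos α
    have h4 : 4 * c * ((3 * t : ℕ) : ℝ) ^ α ≤ ((3 * t : ℕ) : ℝ) ^ 2 := by
      rw [← h2]
      gcongr
    have h5 : (2 * ((Gt t).edgeFinset.card : ℝ)) = (3 * t : ℝ) * (3 * t - 3) := by
      have h6 : (2 * (Gt t).edgeFinset.card : ℕ) = 3 * t * (3 * t - 3) := hE
      have h7 : ((3 * t - 3 : ℕ) : ℝ) = 3 * t - 3 := by
        rw [Nat.cast_sub (by omega)]
        push_cast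
        ring
      calc (2 * ((Gt t).edgeFinset.card : ℝ)) = ((2 * (Gt t).edgeFinset.card : ℕ) : ℝ) := by
            push_cast; ring
        _ = ((3 * t * (3 * t - 3) : ℕ) : ℝ) := by rw [h6]
        _ = _ := by rw [Nat.cast_mul, h7]; push_cast; ring
    have h8 : (3 : ℝ) ≤ t := by exact_mod_cast ht3
    push_cast at h4 ⊢
    nlinarith
  · have := (Gt t).card_edgeFinset_le_card_choose_two
    simpa using this
  · have h1 := turan_lt (3 * t) t (by omega) (by omega)
    omega
  · omega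
  · intro H hH
    have h1 := lam_le (n := 3 * t) (by omega) (Gt t) (3 * t - 3) (deg_Gt t (by omega))
    have h2 := le_lam (n := 3 * t) (by omega) H
    have h3 : H.edgeFinset.card = (Gt t).edgeFinset.card := by
      have := hH.2
      rw [ncard_edge H] at this
      exact this
    rw [h3] at h2
    have h5 : (2 * ((Gt t).edgeFinset.card : ℝ)) = ((3 * t : ℕ) : ℝ) * ((3 * t - 3 : ℕ) : ℝ) := by
      exact_mod_cast hE
    rw [h5] at h2
    have hnpos : (0 : ℝ) < ((3 * t : ℕ) : ℝ) := by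
      have : 0 < 3 * t := by omega
      exact_mod_cast this
    have h6 : ((3 * t - 3 : ℕ) : ℝ) ≤ lam H := by
      have : ((3 * t - 3 : ℕ) : ℝ) * ((3 * t : ℕ) : ℝ) ≤ lam H * ((3 * t : ℕ) : ℝ) := by
        rw [mul_comm]; exact h2
      exact le_of_mul_le_mul_right this hnpos
    exact h1.trans h6

end

end Pool.Agent.Results.MP_7523ff_co.RegularMinimizers
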